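import Mathlib

/-!
# MP_304c86_co, Q1: an aperiodic binary word with at most two closed factors of each length
in a thick set
-/

namespace Pool.Agent.Results.MP_304c86_co.ThickCounterexample

/-- the factor `x_i x_{i+1} ⋯ x_{i+n-1}` of the infinite word `x` -/
def fac {A : Type} (x : ℕ → A) (i n : ℕ) : List A := (List.range n).map fun k => x (i + k)

/-- A finite word `w` is closed if `|w| ≤ 1`, or some border `u` (a word different from `w` that is
a prefix and a suffix of `w`) occurs in `w` only as a prefix and as a suffix. -/
def IsClosedWord {A : Type} (w : List A) : Prop :=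
  w.length ≤ 1 ∨ ∃ u : List A, u ≠ w ∧ u <+: w ∧ u <:+ w ∧
    ∀ p q : List A, w = p ++ u ++ q → p = [] ∨ q = []

/-- `cl_x(n)`: the number of closed factors of `x` of length `n` -/
noncomputable def cl {A : Type} (x : ℕ → A) (n : ℕ) : ℕ :=
  Set.ncard {w : List A | (∃ i, w = fac x i n) ∧ IsClosedWord w}

/-- `x` is not ultimately periodic -/
def Aperiodic {A : Type} (x : ℕ → A) : Prop := ¬ ∃ N p : ℕ, 0 < p ∧ ∀ k, N ≤ k → x (k + p) = x k

/-- `S` meets every interval of some fixed length `g` -/
def Syndetic (S : Set ℕ) : Prop := ∃ g : ℕ, ∀ a : ℕ, ∃ k < g, a + k ∈ S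

/-- `S` contains intervals of every finite length -/
def Thick (S : Set ℕ) : Prop := ∀ L : ℕ, ∃ a : ℕ, ∀ k < L, a + k ∈ S

/-- intersection of a syndetic set with a thick set -/
def PiecewiseSyndetic (S : Set ℕ) : Prop :=
  ∃ S₁ T : Set ℕ, Syndetic S₁ ∧ Thick T ∧ S = S₁ ∩ T

lemma fac_length {A : Type} (x : ℕ → A) (i n : ℕ) : (fac x i n).length = n := by
  simp [fac]

lemma fac_getElem? {A : Type} (x : ℕ → A) (i n k : ℕ) (hk : k < n) :
    (fac x i n)[k]? = some (x (i + k)) := by
  simp [fac, hk]

lemma closed_fac {A : Type} (x : ℕ → A) (i n : ℕ) (hn : 2 ≤ n) (h : IsClosedWord (fac x i n)) :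
    ∃ m < n, (∀ k < m, x (i + k) = x (i + (n - m) + k)) ∧
      ∀ s, 0 < s → s < n - m → ∃ k < m, x (i + s + k) ≠ x (i + k) := by
  rcases h with h | ⟨u, hne, hpre, hsuf, hocc⟩
  · rw [fac_length] at h; omega
  have hle : u.length ≤ n := by
    have := hpre.length_le; rwa [fac_length] at this
  have hlt : u.length < n := by
    rcases Nat.eq_or_lt_of_le hle with h | h
    · exfalso; apply hne
      exact hpre.eq_of_length (by rw [fac_length]; exact h)
    · exact h
  refine ⟨u.length, hlt, ?_, ?_⟩
  · intro k hk
    obtain ⟨r, hr⟩ := hpre
    obtain ⟨l, hl⟩ := hsuf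
    have h1 : (fac x i n)[k]? = u[k]? := by
      rw [← hr, List.getElem?_append_left hk]
    have hll : l.length = n - u.length := by
      have := congrArg List.length hl
      rw [List.length_append, fac_length] at this
      omega
    have h2 : (fac x i n)[n - u.length + k]? = u[k]? := by
      rw [← hl, List.getElem?_append_right (by omega)]
      congr 1
      omega
    rw [fac_getElem? x i n k (by omega)] at h1
    rw [fac_getElem? x i n _ (by omega)] at h2
    have h3 : some (x (i + k)) = some (x (i + (n - u.length + k))) := by rw [h1, h2]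
    rw [Option.some_inj] at h3
    rw [h3, add_assoc]
  · intro s hs hs'
    by_contra hcon
    push Not at hcon
    have hu : ∀ k < u.length, u[k]? = some (x (i + k)) := by
      intro k hk
      obtain ⟨r, hr⟩ := hpre
      rw [← fac_getElem? x i n k (by omega), ← hr, List.getElem?_append_left hk]
    have hdec : fac x i n = (fac x i n).take s ++ u ++ (fac x i n).drop (s + u.length) := by
      apply List.ext_getElem?
      intro k
      have hts : ((fac x i n).take s).length = s := by
        rw [List.length_take, fac_length]; omega
      rcases Nat.lt_or_ge k s with h1 | h1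
      · rw [List.append_assoc, List.getElem?_append_left (by omega),
          List.getElem?_take_of_lt h1]
      · rcases Nat.lt_or_ge k (s + u.length) with h2 | h2
        · rw [List.getElem?_append_left (by rw [List.length_append]; omega),
            List.getElem?_append_right (by omega), hts, hu _ (by omega),
            fac_getElem? x i n k (by omega)]
          rw [← hcon (k - s) (by omega)]
          congr 2
          omega
        · rw [List.getElem?_append_right (by rw [List.length_append]; omega),
            List.length_append, hts, List.getElem?_drop]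
          congr 1
          omega
    rcases hocc _ _ hdec with h1 | h1
    · have := congrArg List.length h1
      rw [List.length_take, fac_length] at this
      simp at this
      omega
    · have := congrArg List.length h1
      rw [List.length_drop, fac_length] at this
      simp at this
      omega

/-- the characteristic word of the powers of `4` -/
def x (k : ℕ) : Bool := decide (4 ^ (Nat.log 4 k) = k)

lemma x_true {k : ℕ} : x k = true ↔ ∃ e, 4 ^ e = k := by
  unfold x
  rw [decide_eq_true_iff]
  constructor
  · intro h; exact ⟨_, h⟩
  · rintro ⟨e, rfl⟩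
    rw [Nat.log_pow (by norm_num)]

lemma x_false {k : ℕ} (h : ¬ ∃ e, 4 ^ e = k) : x k = false := by
  rw [← Bool.not_eq_true, x_true]; exact h

lemma gap {e f : ℕ} (h : 4 ^ e < 4 ^ f) : 4 * 4 ^ e ≤ 4 ^ f := by
  have h1 : e < f := (Nat.pow_lt_pow_iff_right (by norm_num)).mp h
  have h2 : 4 ^ (e + 1) ≤ 4 ^ f := Nat.pow_le_pow_right (by norm_num) h1
  rwa [pow_succ, mul_comm] at h2

lemma x_between {j k : ℕ} (h1 : 4 ^ j < k) (h2 : k < 4 * 4 ^ j) : x k = false := by
  apply x_false
  rintro ⟨e, rfl⟩
  have := gap h1
  omega

lemma aperiodic_x : Aperiodic x := by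
  rintro ⟨N, p, hp, h⟩
  have h1 : N + p ≤ 4 ^ (N + p) := (Nat.lt_pow_self (by norm_num)).le
  have h2 := h (4 ^ (N + p)) (by omega)
  rw [x_true.mpr ⟨_, rfl⟩] at h2
  rw [x_between (j := N + p) (by omega) (by omega)] at h2
  exact absurd h2 (by simp)

/-- the closed factors of length `n`, `2 ⬝ 4^j + 3 ≤ n < 3 ⬝ 4^j` -/
lemma closed_eq {j n i : ℕ} (h1 : 2 * 4 ^ j + 3 ≤ n) (h2 : n < 3 * 4 ^ j)
    (h : IsClosedWord (fac x i n)) :
    fac x i n = (List.range n).map (fun _ => false) ∨
      fac x i n = (List.range n).map (fun k => decide (k = n / 2)) := by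
  obtain ⟨m, hmn, hb, hocc⟩ := closed_fac x i n (by omega) h
  have hm : 1 ≤ m := by
    rcases Nat.eq_zero_or_pos m with h0 | h0
    · subst h0
      obtain ⟨k, hk, -⟩ := hocc 1 (by norm_num) (by omega)
      omega
    · exact h0
  set P := 4 ^ j with hP
  have hxP : x P = true := x_true.mpr ⟨j, rfl⟩
  rcases Nat.lt_or_ge P i with hi | hi
  · -- at most one `b`
    by_cases hnone : ∀ k < n, x (i + k) = false
    · left
      unfold fac
      apply List.map_congr_left
      intro k hk
      exact hnone k (List.mem_range.mp hk)
    · right
      push Not at hnone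
      obtain ⟨c, hc, hxc⟩ := hnone
      have hxc' : x (i + c) = true := by simpa using hxc
      obtain ⟨e, he⟩ := x_true.mp hxc'
      have he4 : 4 * P ≤ i + c := by
        rw [← he]; apply gap; rw [he]; omega
      have hother : ∀ k < n, k ≠ c → x (i + k) = false := by
        intro k hk hkc
        apply x_false
        rintro ⟨f, hf⟩
        rcases Nat.lt_or_gt_of_ne hkc with hlt | hlt
        · have h3 : 4 ^ f < 4 ^ e := by rw [hf, he]; omega
          have h4 := gap h3
          have h5 : 4 ^ j < 4 ^ f := by rw [hf, ← hP]; omega
          have h6 := gap h5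
          rw [hf, he] at h4
          rw [hf, ← hP] at h6
          omega
        · have h3 : 4 ^ e < 4 ^ f := by rw [hf, he]; omega
          have h4 := gap h3
          rw [hf, he] at h4
          omega
      -- the prefix occurrence does not contain `c`
      have hm1 : m ≤ c := by
        by_contra hcon
        push Not at hcon
        have h3 := hb c hcon
        rw [hxc'] at h3
        have h4 : i + (n - m) + c = i + (n - m + c) := by ring
        rw [h4, hother (n - m + c) (by omega) (by omega)] at h3
        exact absurd h3 (by simp)
      have hm2 : c < n - m := by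
        by_contra hcon
        push Not at hcon
        have h3 := hb (c - (n - m)) (by omega)
        rw [show i + (n - m) + (c - (n - m)) = i + c by omega, hxc',
          hother _ (by omega) (by omega)] at h3
        exact absurd h3 (by simp)
      have hm3 : m = c := by
        by_contra hcon
        obtain ⟨k, hk, hk'⟩ := hocc 1 (by norm_num) (by omega)
        apply hk'
        rw [show i + 1 + k = i + (1 + k) by ring, hother _ (by omega) (by omega),
          hother _ (by omega) (by omega)]
      have hm4 : c = n - m - 1 := by
        by_contra hcon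
        obtain ⟨k, hk, hk'⟩ := hocc (n - m - 1) (by omega) (by omega)
        apply hk'
        rw [show i + (n - m - 1) + k = i + (n - m - 1 + k) by ring,
          hother _ (by omega) (by omega), hother _ (by omega) (by omega)]
      unfold fac
      apply List.map_congr_left
      intro k hk
      rw [List.mem_range] at hk
      by_cases hkc : k = c
      · rw [hkc, hxc']
        symm
        rw [decide_eq_true_iff]
        omega
      · rw [hother k hk hkc]
        symm
        rw [decide_eq_false_iff_not]
        omega
  · exfalso
    -- `P` lies in the window and is the last `b` in it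
    have htail : ∀ k, P < k → k < i + n → x k = false := by
      intro k hk hk'
      exact x_between (j := j) hk (by omega)
    rcases Nat.lt_or_ge P (i + n - m) with hcase | hcase
    · -- the suffix occurrence consists of `a`s
      have hpre : ∀ k < m, x (i + k) = false := by
        intro k hk
        rw [hb k hk]
        exact htail _ (by omega) (by omega)
      have hmP : i + m ≤ P := by
        by_contra hcon
        push Not at hcon
        have h3 := hpre (P - i) (by omega)
        rw [show i + (P - i) = P by omega, hxP] at h3
        exact absurd h3 (by simp)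
      obtain ⟨k, hk, hk'⟩ := hocc (n - m - 1) (by omega) (by omega)
      apply hk'
      rw [hpre k hk]
      exact htail _ (by omega) (by omega)
    · -- the suffix occurrence contains `P`
      have h3 := hb (P - (i + n - m)) (by omega)
      rw [show i + (n - m) + (P - (i + n - m)) = P by omega, hxP] at h3
      -- the image of `P` in the suffix occurrence
      have h4 := hb (P - i) (by omega)
      rw [show i + (P - i) = P by omega, hxP] at h4
      have h5 : x (i + (n - m) + (P - i)) = false := htail _ (by omega) (by omega)
      rw [h5] at h4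
      exact absurd h4 (by simp)

/-- Q1 is false: there is an aperiodic binary word `x` and a thick (hence piecewise syndetic) set
`S` such that `x` has at most two closed factors of length `n` for every `n ∈ S`. -/
theorem result : ∃ x : ℕ → Bool, Aperiodic x ∧
    ∃ S : Set ℕ, Thick S ∧ PiecewiseSyndetic S ∧ ∀ n ∈ S, cl x n ≤ 2 := by
  have hthick : Thick {n | ∃ j, 2 * 4 ^ j + 3 ≤ n ∧ n < 3 * 4 ^ j} := by
    intro L
    have h1 : L + 3 < 4 ^ (L + 3) := Nat.lt_pow_self (by norm_num)
    refine ⟨2 * 4 ^ (L + 3) + 3, fun k hk => ⟨L + 3, by omega, by omega⟩⟩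
  refine ⟨x, aperiodic_x, {n | ∃ j, 2 * 4 ^ j + 3 ≤ n ∧ n < 3 * 4 ^ j}, hthick,
    ⟨Set.univ, _, ⟨1, fun a => ⟨0, by norm_num, Set.mem_univ _⟩⟩, hthick,
      (Set.univ_inter _).symm⟩, ?_⟩
  rintro n ⟨j, h1, h2⟩
  unfold cl
  have hsub : {w : List Bool | (∃ i, w = fac x i n) ∧ IsClosedWord w} ⊆
      {(List.range n).map (fun _ => false), (List.range n).map (fun k => decide (k = n / 2))} := by
    rintro w ⟨⟨i, rfl⟩, hw⟩
    exact closed_eq h1 h2 hw
  refine (Set.ncard_le_ncard hsub (Set.toFinite _)).trans ?_
  exact (Set.ncard_insert_le _ _).trans (by rw [Set.ncard_singleton])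

end Pool.Agent.Results.MP_304c86_co.ThickCounterexample
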